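import Pool.Agent.MWH.Defs

/-!
# Block MWH, part A: the base (h) (rows)

Every row: file `Pool/Agent/HelperNN_MWH/XXX.lean`, import `Pool.Agent.MWH.StmtsA`, namespace
`Pool.Agent.MWH.HNN`, theorem `xxx (hypotheses = rows in uses, in this order) : XxxStmt`.
Rows of other squads used here: `MWS.MasStmt`, `MWS.SatStmt`, `MWS.LrnStmt`, `MWS.NdnStmt`, `MWS.JpiStmt`,
`MVO.OneStmt`, `MWL.TrnStmt`, `MWL.HvpStmt`, `MWL.AbsStmt`, `MWL.ArrStmt`, `MWL.Ta1Stmt`, `MWL.Ta2Stmt`,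
`MWL.KeyStmt` (all proved).  Tools: `rr_ins'`, `rr_sub`, `rr_push`, `pshB_succ`, `mem_pshB`, `pshB_nil`,
`asm_congr`, `count_asm`, `mem_asm` (`MVO/Basic.lean`, `MVO/Push.lean`).
`Bef l x y` (no `x` behind a `y` in `l`) is defined in `MWS/StmtsB.lean`.
-/

namespace Pool.Agent.MWH

open Pool.Agent.Helper14_MV Pool.Agent.Helper2_MV Pool.Agent.MVO Pool.Agent.MWL Pool.Agent.MWS

/-- **NFE** (uses MWS.MAS).  Words of the same shape and with the same visible facts are equal.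
PROOF.  MAS with `θ = β`.  Let `C, i, A, D, x, y` be as in its hypothesis: `Bef (B i) x y` and
`Bef (B' i) x y` are different, `Shp k B C`.  `x, y ∈ C i`, so `NS k x`, `NS k y` (`OkB k C`) and
`x, y ∈ B i` (the counts in `B i` are not `0` by `Shp`).  If for all `j ≤ k`, `j ≠ i`: `x ∉ B j ∨ y ∉ B j`, the
hypothesis gives a contradiction.  So there is `j ≤ k`, `j ≠ i` with `x, y ∈ B j`, so `x, y ∈ C j` (`Shp`):
`Cm2`. -/
def NfeStmt : Prop :=
  ∀ β : FIC, BaseH β → ∀ (k : ℕ) (B B' : ℕ → List ℕ), OkB k B → OkB k B' → Shp k B B' →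
    (∀ i ≤ k, ∀ x y, x ≠ y → x ∈ B i → y ∈ B i → (∀ j ≤ k, j ≠ i → x ∉ B j ∨ y ∉ B j) →
      (Bef (B i) x y ↔ Bef (B' i) x y)) → RR β (asm k B) (asm k B')

/-- **SWH** (uses MWS.MAS, NFE).  The exchange of the neighbours `last x`, `first y` follows from two
letter words.
PROOF.  MAS for `B`, `B'`, `θ`.  Let `C, i, A, D, x, y` be as in its hypothesis: `C i = A ++ x :: y :: D`,
`x ≠ y`, `x ∉ D`, `y ∉ A`, `Shp k B C`, `¬ (Bef (B i) x y ↔ Bef (B' i) x y)`.  `x`, `y` satisfy `NS k`, they occur in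
`C i`, `B i`, `B' i`.  If there is `j ≤ k`, `j ≠ i` with `x, y ∈ C j`: `Cm2`.  Otherwise `i` is the only block of `C`,
`B`, `B'` which contains both.  Exchanging `B` and `B'` (`RR.symm`; `Shp k B' C` by transitivity) we may
assume `Bef (B i) x y` and `¬ Bef (B' i) x y`.  Let `U = r2 x y B`, `U' = r2 x y B'`; `RR θ (asm k U) (asm k U')`.
For `j ≠ i` the list `U j` is `x^m` or `y^m`, and `U i = x^p ++ y^q` with `p, q ≥ 1` (no `x` behind a `y`).
Choose `P j`, `Q j` for `j ≤ k`: `P i = A`, `Q i = D`; for `j ≠ i`: if `x ∈ C j` (or `y ∈ C j`) write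
`C j = P j ++ x :: Q j` (or with `y`); otherwise `P j = C j`, `Q j = []`.  Let `C1 j = P j ++ U j ++ Q j`,
`C2 j = P j ++ U' j ++ Q j`, `C3 = Function.update C i (A ++ y :: x :: D)`.
`RR θ (asm k C1) (asm k C2)` by `rr_ins'`.  `RR β (asm k C) (asm k C1)` and `RR β (asm k C2) (asm k C3)` by NFE
(for `C2`, `C3` the pair `x, y` matters in block `i` too):
shapes: if `(U j).count x = 1` then nothing changes in block `j`, and if it is `≥ 2` then also
`(C j).count x ≥ 2` (`Shp`), so both counts are `≥ 2`; the same for `y` and for `U'`.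
Facts: for `j ≠ i` one occurrence of a letter is repeated, this does not change `Bef _ c d` for `c ≠ d`.
Block `i`: use `¬ Bef l c d ↔ [d, c] <+ l` (sublist).  `C i` and `C1 i = A ++ x^p ++ y^q ++ D`: the same facts.
`C2 i = A ++ U' i ++ D` and `C3 i = A ++ y :: x :: D`: `[y, x]` is a sublist of both.  `[x, y]` is a sublist of
`C3 i` iff `x ∈ A` or `y ∈ D`; if `[x, y] <+ U' i` then `U' i` contains `[x,y]` and `[y,x]`, so `x` or `y` occurs
twice in `U' i`, hence twice in `C i` (`Shp`), so `x ∈ A` (as `x ∉ D`) or `y ∈ D`.  For other pairs only the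
membership of `x`, `y` in the middle part matters (both occur there). -/
def SwhStmt : Prop := ∀ β : FIC, BaseH β → SWP β

/-- **OKW** (uses nothing).  Basic facts about `W`.
PROOF.  Counts: `List.count_append`, `List.count_replicate`, cases of `s`; for `ov`, `2 ≤ a i`: `1 + (a i - 1)`;
for `ov`, `a i = 1`: `1 + (b i - 1)` with `b i ≠ 0`.  `OkB`: the letters are `0`, `1`, they satisfy `NS k`;
`Mlt` by `Vd.da`, `Vd.db`.  Facts in block `i` (`¬ Bef l x y ↔ [y, x] <+ l`, or directly): `xy`: `0^p 1^q` with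
`p, q ≥ 1`; `yx`; `ov` with `2 ≤ p`: `0 1^q 0^(p-1)` has `0` behind `1` and `1` behind `0`; `ov` with `p = 1`:
`1 0 1^(q-1)` with `q ≥ 2` by `Vs`. -/
def OkwStmt : Prop :=
  ∀ (k : ℕ) (a b : ℕ → ℕ) (i : ℕ) (s : Stt), Vd k a b i → Vs a b i s →
    OkB k (W a b i s) ∧ Two01 k (W a b i s) ∧
      (∀ j, (W a b i s j).count 0 = a j ∧ (W a b i s j).count 1 = b j) ∧
      (∀ j, ∀ c ∈ W a b i s j, c = 0 ∨ c = 1) ∧
      (Bef (W a b i s i) 0 1 ↔ s = Stt.xy) ∧ (Bef (W a b i s i) 1 0 ↔ s = Stt.yx)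

/-- **NFW** (uses NFE, OKW).  Every two letter word with exactly one common block is one of the words
`W`.
PROOF.  `0, 1 ∈ B i`, so not both facts `Bef (B i) 0 1`, `Bef (B i) 1 0` hold (there are a `0` and a `1`, one of
them is behind the other).  Let `s = xy` if `Bef (B i) 0 1`, `s = yx` if `Bef (B i) 1 0`, `s = ov` otherwise.
`Vs`: if `s = ov` and both counts are `1`, then `B i` is `[0, 1]` or `[1, 0]` (`Two01`, length `2`) and one of
the facts holds.  `Vd`: `da`, `db` by `Mlt`.  NFE for `B` and `W` (the blocks have the same counts; only the pair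
`0, 1` in block `i` matters; for `x = 1, y = 0` too). -/
def NfwStmt : Prop :=
  ∀ β : FIC, BaseH β → ∀ (k : ℕ) (B : ℕ → List ℕ), OkB k B → Two01 k B → ∀ i ≤ k,
    0 ∈ B i → 1 ∈ B i → (∀ j ≤ k, j ≠ i → 0 ∉ B j ∨ 1 ∉ B j) →
      Vd k (ty B 0) (ty B 1) i ∧ ∃ s : Stt, Vs (ty B 0) (ty B 1) i s ∧
        RR β (asm k B) (asm k (W (ty B 0) (ty B 1) i s)) ∧
        (Bef (B i) 0 1 ↔ s = Stt.xy) ∧ (Bef (B i) 1 0 ↔ s = Stt.yx)

/-- **SHW** (uses NFE, OKW).  Only the shapes matter.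
PROOF.  NFE for `W a b i s` and `W a' b' i s`: `RR β`; the same for `s'` (`Vs` for `a'`, `b'` holds by the
shapes); transitivity in `θ`. -/
def ShwStmt : Prop :=
  ∀ β θ : FIC, BaseH β → β ≤ θ → ∀ (k : ℕ) (a b a' b' : ℕ → ℕ) (i : ℕ), Vd k a b i →
    Vd k a' b' i → Sh k a a' → Sh k b b' → ∀ s s' : Stt, Vs a b i s → Vs a b i s' →
      (RR β (asm k (W a b i s)) (asm k (W a' b' i s))) ∧
        (Tr θ k a b i s s' ↔ Tr θ k a' b' i s s')

/-- **SWT** (uses NFE, OKW).  Exchange of the two letters.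
PROOF.  `rr_sub` with `h 0 = [1]`, `h 1 = [0]` maps `asm k (W a b i s)` to a word which is `RR β` to
`asm k (W b a i s.sw)` by NFE (or is equal to it): the block `j ≠ i` is `1^(a j) 0^(b j)` with one factor
empty; the block `i` has the counts exchanged and the facts exchanged.  Direction `→`; the other
direction is the same statement for `b`, `a`, `s.sw`, `s'.sw`. -/
def SwtStmt : Prop :=
  ∀ β θ : FIC, BaseH β → β ≤ θ → ∀ (k : ℕ) (a b : ℕ → ℕ) (i : ℕ), Vd k a b i →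
    Vd k b a i ∧ ∀ s s' : Stt, Vs a b i s → Vs a b i s' →
      Vs b a i s.sw ∧ (Tr θ k a b i s s' ↔ Tr θ k b a i s.sw s'.sw)

/-- **ALL** (uses NFE, OKW).  `xy ~ yx` gives all transitions if one of the letters occurs twice.
PROOF.  Let `2 ≤ a i`.  `rr_ins'` with `P i = [0]`, nothing else: the block `i` is `0 0^p 1^q` resp.
`0 1^q 0^p`; the first word is `RR β` to `W a b i xy`, the second one to `W a b i ov` (NFE: the count `p + 1` and
`p ≥ 2` have the same shape).  So `xy ~ ov`, and `yx ~ xy ~ ov`.  Let `2 ≤ b i`: `rr_ins'` with `Q i = [1]`: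
`0^p 1^q 1` (`xy`) and `1^q 0^p 1` (`ov`). -/
def AllStmt : Prop :=
  ∀ β θ : FIC, BaseH β → β ≤ θ → ∀ (k : ℕ) (a b : ℕ → ℕ) (i : ℕ), Vd k a b i →
    (2 ≤ a i ∨ 2 ≤ b i) → Tr θ k a b i Stt.xy Stt.yx →
      Tr θ k a b i Stt.xy Stt.ov ∧ Tr θ k a b i Stt.yx Stt.ov

/-- **PS0** (uses NFE, OKW).  Push to other blocks, nothing is added in the common block.
PROOF.  `rr_push` along `f` for the two words: blocks `pshB k f (W a b i s)`.  Then `rr_ins'` with
`Q j' := replicate (a' j' - psh k f a j') 0 ++ replicate (b' j' - psh k f b j') 1` for `j' ≠ f i`, `Q (f i) = []`,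
`P = []`.  The result `V s` satisfies `RR β (asm k' (V s)) (asm k' (W a' b' (f i) s))` by NFE: the count of
`0` in block `j' ≠ f i` is `max (psh k f a j') (a' j')`, which has the same shape as `a' j'` by `Dm`
(`psh k f a j' ≤ 1` in the second case, `= 0` in the third one); the block `f i` is `W a b i s i`, and
`a i`, `a' (f i)` are both `1` or both `≥ 2`; the facts in block `f i` are given by `s` (OKW (4)).
(The letters of `pshB`: `mem_pshB`; counts: `List.count_flatMap` or induction with `pshB_succ`.) -/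
def Ps0Stmt : Prop :=
  ∀ β θ : FIC, BaseH β → β ≤ θ → ∀ (k k' : ℕ) (f a b a' b' : ℕ → ℕ) (i : ℕ), BMap k k' f →
    Vd k a b i → Vd k' a' b' (f i) → Dm k k' f a a' → Dm k k' f b b' →
      (∀ j ≤ k, f j = f i → j ≠ i → a j = 0 ∧ b j = 0) → (a i = 1 ↔ a' (f i) = 1) →
        (b i = 1 ↔ b' (f i) = 1) → ∀ s s' : Stt, Vs a b i s → Vs a b i s' →
          Tr θ k a b i s s' → Tr θ k' a' b' (f i) s s'

/-- **PSL** (uses NFE, OKW).  Push; letters `1` may come from the left into the common block.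
PROOF.  As PS0.  The block `f i` of the pushed word is `1^m ++ W a b i s i` (blocks `j < i` with `f j = f i` contain
only letters `1`); for `s = yx`: `1^m 1^q 0^p`, the state `yx`; for `ov` the state is `ov`.  The count of `1` there
is `≥ b i ≥ 2`, the same shape as `b' (f i) ≥ 2`. -/
def PslStmt : Prop :=
  ∀ β θ : FIC, BaseH β → β ≤ θ → ∀ (k k' : ℕ) (f a b a' b' : ℕ → ℕ) (i : ℕ), BMap k k' f →
    Vd k a b i → Vd k' a' b' (f i) → Dm k k' f a a' → Dm k k' f b b' →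
      (∀ j ≤ k, f j = f i → j ≠ i → a j = 0 ∧ (j < i ∨ b j = 0)) → (a i = 1 ↔ a' (f i) = 1) →
        2 ≤ b i → 2 ≤ b' (f i) →
          Tr θ k a b i Stt.yx Stt.ov → Tr θ k' a' b' (f i) Stt.yx Stt.ov

/-- **PSR** (uses NFE, OKW).  Push; letters `1` may come from the right into the common block.
PROOF.  As PSL, the block `f i` is `W a b i s i ++ 1^m`; `xy`: `0^p 1^q 1^m`. -/
def PsrStmt : Prop :=
  ∀ β θ : FIC, BaseH β → β ≤ θ → ∀ (k k' : ℕ) (f a b a' b' : ℕ → ℕ) (i : ℕ), BMap k k' f →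
    Vd k a b i → Vd k' a' b' (f i) → Dm k k' f a a' → Dm k k' f b b' →
      (∀ j ≤ k, f j = f i → j ≠ i → a j = 0 ∧ (i < j ∨ b j = 0)) → (a i = 1 ↔ a' (f i) = 1) →
        2 ≤ b i → 2 ≤ b' (f i) →
          Tr θ k a b i Stt.xy Stt.ov → Tr θ k' a' b' (f i) Stt.xy Stt.ov

/-- **ABI** (uses MWS.SAT, NFE, OKW).  Absorption of the first letter: insertion.
PROOF.  `Vd k (ad 1 a j) b i`: clear.  SAT for `B = W a b i s`, `x = 0`, block `j` (`Ab` for `ty B 0`: `TRN (3)`-like, the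
type is `a` by OKW, so it is literally `a`).  If `2 ≤ a j`: same shape, NFE.  If `a j = 0` (so `j ≠ i`,
`b j = 0`): `B j = []`, SAT with `P = Q = []` gives the block `[0, 0]`.  If `a j = 1`: `B j = P' ++ 0 :: Q`
(`List.append_of_mem`), SAT with `P = P' ++ [0]`: the block `P' ++ [0,0,0] ++ Q`; in block `i` the facts do not
change, NFE to `W (ad 1 a j) b i s`. -/
def AbiStmt : Prop :=
  ∀ β θ : FIC, BaseH β → β ≤ θ → ∀ (k : ℕ) (a b : ℕ → ℕ) (i : ℕ), Vd k a b i → ∀ j ≤ k,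
    Ab 1 (FC.ofFIC θ) k a j → (j = i ∨ b j = 0) →
      Vd k (ad 1 a j) b i ∧ ∀ s : Stt, Vs a b i s →
        RR θ (asm k (W a b i s)) (asm k (W (ad 1 a j) b i s))

/-- **ABJ** (uses MWS.SAT, NFE, OKW).  Absorption of the second letter.
PROOF.  As ABI with the letter `1`. -/
def AbjStmt : Prop :=
  ∀ β θ : FIC, BaseH β → β ≤ θ → ∀ (k : ℕ) (a b : ℕ → ℕ) (i : ℕ), Vd k a b i → ∀ j ≤ k,
    Ab 1 (FC.ofFIC θ) k b j → (j = i ∨ a j = 0) →
      Vd k a (ad 1 b j) i ∧ ∀ s : Stt, Vs a b i s →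
        RR θ (asm k (W a b i s)) (asm k (W a (ad 1 b j) i s))

/-- **ABO** (uses MWS.SAT, NFE, OKW).  Absorption in a block of the other letter makes everything
equal.
PROOF.  First statement: `a j = 0` by `Vd.un`.  SAT for `W a b i s`, `x = 0`, block `j`, `P = []`, `Q = W .. j`: the new
family has `0` and `1` in the blocks `i` and `j`.  The same for `s'`.  The two new words are `RR β` by NFE (the
pair `0, 1` has two common blocks).  Second statement: the same with `x = 1`. -/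
def AboStmt : Prop :=
  ∀ β θ : FIC, BaseH β → β ≤ θ → ∀ (k : ℕ) (a b : ℕ → ℕ) (i : ℕ), Vd k a b i → ∀ j ≤ k,
    j ≠ i → ((b j ≠ 0 ∧ Ab 1 (FC.ofFIC θ) k a j) ∨ (a j ≠ 0 ∧ Ab 1 (FC.ofFIC θ) k b j)) →
      ∀ s s' : Stt, Vs a b i s → Vs a b i s' → Tr θ k a b i s s'

/-- **NRX** (uses MWL.TRN, ABI, ABJ).  Normal vectors.
PROOF.  Process the blocks `0..k` one after the other for the letter `0` (then for the letter `1`): if
`a j ≠ 0`, `a` absorbs at `j` and `a j = 1`, replace `a` by `ad 1 a j`: ABI for `θ = β` (if `j ≠ i` then `b j = 0` by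
`Vd.un`).  By TRN (1) the set of the absorbing blocks does not change.  At the end `Nrm`.  All steps give
`RR β` of the words `W`, for `s` with `Vs a b i s` (`Vs` stays true), hence the equivalence of `Tr θ`. -/
def NrxStmt : Prop :=
  ∀ β : FIC, BaseH β → ∀ (k : ℕ) (a b : ℕ → ℕ) (i : ℕ), Vd k a b i →
    ∃ a' b' : ℕ → ℕ, Vd k a' b' i ∧ Nrm (FC.ofFIC β) k a' ∧ Nrm (FC.ofFIC β) k b' ∧
      (∀ j, a j ≤ a' j ∧ b j ≤ b' j ∧ (a j = 0 → a' j = 0) ∧ (b j = 0 → b' j = 0)) ∧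
      ∀ θ : FIC, β ≤ θ → ∀ s s' : Stt, Vs a b i s → Vs a b i s' →
        (Tr θ k a b i s s' ↔ Tr θ k a' b' i s s')

/-- **EDV** (uses NFE, OKW, NFW, SHW, SWT, ALL, NRX).  The edges of two letter words from vectors.
PROOF.  Let `B`, `B'` be as in `EdgeP`.  If there is no block `i ≤ k` with `0, 1 ∈ B i` and
(`∀ j ≤ k, j ≠ i → 0 ∉ B j ∨ 1 ∉ B j`), then NFE gives `RR β (asm k B) (asm k B')`, take `L = []`.  Otherwise NFW for `B`
and `B'` (the same letters in the blocks by `Shp`): states `s`, `s'`; by SHW (first part)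
`RR β (asm k (W (ty B' 0) (ty B' 1) i s')) (asm k (W a b i s'))`, `a = ty B 0`, `b = ty B 1`.  So for `θ ≥ β`:
`RR θ (asm k B) (asm k B') ↔ Tr θ k a b i s s'`.  By NRX (`a'`, `b'`): `↔ Tr θ k a' b' i s s'`.
If `s = s'`: `L = []`.  `Tr` is symmetric in `s`, `s'`.  Case `a' i = 1 = b' i` (then `s, s'` are `xy`, `yx` because
`Vs a b i ov` would give `2 ≤ a i ≤ a' i` or the same for `b`): the hypothesis.  Case `2 ≤ b' i`: we have lists
`L1`, `L2` for `(xy, ov)` and `(yx, ov)`; for `(xy, yx)` take `L1 ++ L2` with ALL (and transitivity).  Case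
`2 ≤ a' i`: the hypothesis for `b', a'` (`Vd` by SWT) and SWT: `Tr θ k a' b' i xy ov ↔ Tr θ k b' a' i yx ov` etc. -/
def EdvStmt : Prop :=
  ∀ β : FIC, BaseH β →
    (∀ (k : ℕ) (a b : ℕ → ℕ) (i : ℕ), Vd k a b i → Nrm (FC.ofFIC β) k a → Nrm (FC.ofFIC β) k b →
      (a i = 1 → b i = 1 → Eg β k a b i Stt.xy Stt.yx) ∧
      (2 ≤ b i → Eg β k a b i Stt.xy Stt.ov ∧ Eg β k a b i Stt.yx Stt.ov)) → EdgeP β

/-- **JPX** (uses MVO.ONE, MWL.TRN, MWL.ABS, MWL.KEY, MWS.LRN, MWS.NDN, MWS.JPI, NFE, OKW).  The join prime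
criterion.  `F` is a set of blocks where the letter `1` is free.
PROOF.  JPI with `B0 = W a b i s`, `B1 = W a b i s'` and `A B :=` (`(B j).count 0 = a j` for all `j ≤ k`) and
(`(B j).count 1 = b j` for all `j ≤ k` with `¬ F j`) and the fact `Bef (B i) 0 1` if `s = xy`, `Bef (B i) 1 0` if
`s = yx`.  `A B0`, `¬ A B1` by OKW.  Invariance: let `θ ≥ β`, `NC2 θ`, not `Tr θ k a b i s s'`, `B`, `B'` related in `θ`,
`A B`.  ONE: `L1 θ k (ty B 0) (ty B' 0)`, `ty B 0 = a` on `0..k`; by the hypothesis `a` (so `ty B 0`, TRN (3)) does not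
absorb: KEY: `ty B' 0 = a` on `0..k`.  Let `b1 = ty B 1`, `b1' = ty B' 1`, `j ≤ k`, `¬ F j`.  If `b1` absorbs at `j`, then
`c := b1 + 2·1_F` too (TRN (2)); `Nq 1 k c b` (`c t = b t` if `¬ F t`; if `F t` both entries are `≥ 2`, so heavy), so
`L1 θ k c b` by ABS, and `b` absorbs at `j` (TRN (1)): excluded by the hypothesis.  So KEY: `b1' j = b1 j = b j`.
The fact.  (i) `s = xy`, `s' = yx`, `a i = b i = 1`, `¬ F i`: if `¬ Bef (B' i) 0 1` insert `Q j = [1, 1]` at the end of the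
blocks `j` with `F j` (`rr_ins'`): the new words have the types `a` and (the shape of) `b`, block `i` is
unchanged: `B i = [0,1]`, `B' i = [1,0]`; NFE: they are `W a b i xy` and `W a b i yx`: `Tr θ k a b i xy yx`,
contradiction.  (ii) `s = xy`, `s' = ov`, `F i`: insert `[1, 1]` at the end of all blocks of `F`.  The block `i`:
`B i ++ [1,1]` has the state `xy` (`0 ∈ B i`, still no `0` behind a `1`), `B' i ++ [1,1]` has a `0` behind a `1` and a `1`
behind a `0`: `ov`.  NFE: `Tr θ k a b i xy ov`.  (iii) `s = yx`, `s' = ov`, `F i`: the same with `[1,1]` in front of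
the blocks.  (`F` need not be decidable: use `classical`.) -/
def JpxStmt : Prop :=
  ∀ β : FIC, BaseH β → ∀ (k : ℕ) (a b : ℕ → ℕ) (i : ℕ) (F : ℕ → Prop), Vd k a b i →
    (∀ j ≤ k, F j → 2 ≤ b j) → ∀ s s' : Stt,
      ((a i = 1 ∧ b i = 1 ∧ s = Stt.xy ∧ s' = Stt.yx) ∨
        (F i ∧ s = Stt.xy ∧ s' = Stt.ov) ∨ (F i ∧ s = Stt.yx ∧ s' = Stt.ov)) →
      (∀ θ : FIC, β ≤ θ → NC2 θ → ¬ Tr θ k a b i s s' →
        (∀ j ≤ k, ¬ Ab 1 (FC.ofFIC θ) k a j) ∧
          (∀ j ≤ k, ¬ F j → ¬ Ab 1 (FC.ofFIC θ) k b j)) →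
        JPp β (asm k (W a b i s), asm k (W a b i s'))

/-- **LT2** (uses MWL.ARR, MWL.TA2).  The light letter of degree two.
PROOF.  All entries of `a` are `≤ 1` on `0..k`, `deg k a = 2`.  (1) `a j = 1`: TA2 (1) gives `Has (J 2)`.  `a j = 0`: TA2
(2) or (3).  (2) TA2 (1) for the block `v`: `a` absorbs at `v` iff `J 2` and `D (lb a v)`, `lb a v = 1` (the only
non-empty block before `v` is `u`); ARR: `J 2` gives `D 1`. -/
def Lt2Stmt : Prop :=
  ∀ R : FC, LR 1 R → ∀ (k : ℕ) (a : ℕ → ℕ) (u v : ℕ), LL2 k a u v →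
    ((∃ j ≤ k, Ab 1 R k a j) → Has 1 R (Bit.J 2)) ∧ (Has 1 R (Bit.J 2) → Ab 1 R k a v)

/-- **LT3** (uses MWL.HVP, MWL.ARR, MWL.TA2).  A normal light entry of a letter which is not of the
type `LL2` has a heavy block behind it.
PROOF.  Suppose there is no `m > i` with `2 ≤ a m`.  There is no `p ≤ i` with `2 ≤ a p` (then `Hv a i`, HVP: `a` absorbs
at `i`, `Nrm`: `2 ≤ a i`).  So all entries are `≤ 1`.  Let `q = deg k a ≥ 2` be the number of the light blocks.  If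
`q = 2`: `LL2` for the two blocks, contradiction.  If `q ≥ 3`: let `v` be the last light block; `J 3` gives `J q` and
`D (q-1)` (ARR), so by TA2 (1) `a` absorbs at `v` (`lb a v = q - 1`), `Nrm`: `2 ≤ a v`, contradiction. -/
def Lt3Stmt : Prop :=
  ∀ R : FC, LR 1 R → Has 1 R (Bit.J 3) → ∀ (k : ℕ) (a : ℕ → ℕ), Nrm R k a → 2 ≤ deg k a →
    (∀ u v, ¬ LL2 k a u v) → ∀ i ≤ k, a i = 1 → ∃ m, i < m ∧ m ≤ k ∧ 2 ≤ a m

/-- **LT4** (uses MWL.HVP, MWL.ARR, MWL.TA1, MWL.TA2).  Which blocks of a normal vector are heavy.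
PROOF.  (1) HVP and `Nrm` (`Hv a j`).  (2) If some `p ≤ j` has `2 ≤ a p`: (1) (or `p = j`).  Otherwise `a j = 1` and all
entries before are light.  If there is a heavy block behind: TA1 (4): `a` absorbs at `j` iff `D (lb a j)`; ARR:
`J 3` gives `D 2`, hence `D (lb a j)`.  If not: all entries are `≤ 1`, `deg k a ≥ lb a j + 1 ≥ 3`; TA2 (1) with
`J (deg k a)` and `D (lb a j)` from `J 3`.  (3) the same with `1 ≤ lb a j` and `D 1`; in the last case
`deg k a = 2` would give `LL2`. -/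
def Lt4Stmt : Prop :=
  ∀ R : FC, LR 1 R → ∀ (k : ℕ) (a : ℕ → ℕ), Nrm R k a → 2 ≤ deg k a → ∀ j ≤ k, a j ≠ 0 →
    ((∃ p ≤ j, 2 ≤ a p) → 2 ≤ a j) ∧
    (Has 1 R (Bit.J 3) → 2 ≤ lb a j → 2 ≤ a j) ∧
    (Has 1 R (Bit.J 3) → Has 1 R (Bit.D 1) → (∀ u v, ¬ LL2 k a u v) → 1 ≤ lb a j → 2 ≤ a j)

/-- **JPC** (uses MWS.LRN, LT2, JPX).  The criterion for a light letter of degree two.
PROOF.  JPX.  Let `θ` be as there, not `Tr θ k a b i s s'`.  If `a` absorbs at some `j ≤ k`, LT2 gives `Has (J 2)`,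
so `Tr` by the first hypothesis, contradiction.  The second part is the second hypothesis. -/
def JpcStmt : Prop :=
  ∀ β : FIC, BaseH β → ∀ (k : ℕ) (a b : ℕ → ℕ) (i u v : ℕ) (F : ℕ → Prop), Vd k a b i →
    LL2 k a u v → (∀ j ≤ k, F j → 2 ≤ b j) → ∀ s s' : Stt,
      ((a i = 1 ∧ b i = 1 ∧ s = Stt.xy ∧ s' = Stt.yx) ∨
        (F i ∧ s = Stt.xy ∧ s' = Stt.ov) ∨ (F i ∧ s = Stt.yx ∧ s' = Stt.ov)) →
      (∀ θ : FIC, β ≤ θ → NC2 θ → Has 1 (FC.ofFIC θ) (Bit.J 2) → Tr θ k a b i s s') →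
      (∀ θ : FIC, β ≤ θ → NC2 θ → ∀ j ≤ k, ¬ F j → Ab 1 (FC.ofFIC θ) k b j →
        Tr θ k a b i s s') →
        JPp β (asm k (W a b i s), asm k (W a b i s'))

end Pool.Agent.MWH
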