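import Pool.Agent.MWH.StmtsB

/-!
# Block MWH, part C: the canonical edges of h4 and h5 (rows)

Rules for the rows as in `StmtsA.lean` (import `Pool.Agent.MWH.StmtsC`).  Rows `Uxx`: a transition of
arbitrary types is equivalent to a canonical one (at most four blocks): `→` push with the merging
map `g` of the docstring (PS0 or PSL), `←` push with the strictly increasing map `f` (PIN).
Checking `Dm`: in a block `j'` of the canonical word with entry `2`: first case; entry `1`: second case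
with the given block `j0`; entry `0`: third case.  `Vd` of the canonical word: `decide`-like
(`interval_cases`, `simp [vc]`).  Rows `Jxx`: a canonical edge is join prime: JPC.
-/

namespace Pool.Agent.MWH

open Pool.Agent.Helper14_MV Pool.Agent.Helper2_MV Pool.Agent.MVO Pool.Agent.MWL Pool.Agent.MWS

/-- a canonical edge -/
def ce (k : ℕ) (la lb : List ℕ) (i : ℕ) (s s' : Stt) : List ℕ × List ℕ :=
  (asm k (W (vc la) (vc lb) i s), asm k (W (vc la) (vc lb) i s'))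

/-- `θ` contains a canonical edge -/
def Ce (θ : FIC) (k : ℕ) (la lb : List ℕ) (i : ℕ) (s s' : Stt) : Prop :=
  RR θ (ce k la lb i s s').1 (ce k la lb i s s').2

/-- **U10** (uses PS0, PIN).  PROOF.  `g j = 0` for `j ≤ i`, `1` for `i < j < p`, `2` for `p ≤ j`; `j0 = i`, `j0 = p`.
`f = i, m, p`. -/
def U10Stmt : Prop :=
  ∀ β θ : FIC, BaseH β → β ≤ θ → ∀ (k : ℕ) (a b : ℕ → ℕ) (i p : ℕ), Vd k a b i → LL2 k a i p →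
    b i = 1 → (∀ j < i, b j = 0) → (∃ m, i < m ∧ m < p ∧ 2 ≤ b m) →
      (∀ j, p < j → j ≤ k → b j = 0) →
        (Tr θ k a b i Stt.xy Stt.yx ↔ Ce θ 2 [1, 0, 1] [1, 2, 0] 0 Stt.xy Stt.yx)

/-- **U01** (uses PS0, PIN).  PROOF.  `g j = 0` for `j ≤ i`, `1` for `i < j ≤ p`, `2` for `p < j`; `f = i, p, z`. -/
def U01Stmt : Prop :=
  ∀ β θ : FIC, BaseH β → β ≤ θ → ∀ (k : ℕ) (a b : ℕ → ℕ) (i p : ℕ), Vd k a b i → LL2 k a i p →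
    b i = 1 → (∀ j < i, b j = 0) → (∀ j, i < j → j < p → b j = 0) →
      (∃ z, p < z ∧ z ≤ k ∧ 2 ≤ b z) →
        (Tr θ k a b i Stt.xy Stt.yx ↔ Ce θ 2 [1, 1, 0] [1, 0, 2] 0 Stt.xy Stt.yx)

/-- **U11** (uses PS0, PIN).  PROOF.  `g j = 0` for `j ≤ i`, `1` for `i < j < p`, `2` for `j = p`, `3` for `p < j`;
`f = i, m, p, z`. -/
def U11Stmt : Prop :=
  ∀ β θ : FIC, BaseH β → β ≤ θ → ∀ (k : ℕ) (a b : ℕ → ℕ) (i p : ℕ), Vd k a b i → LL2 k a i p →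
    b i = 1 → (∀ j < i, b j = 0) → (∃ m, i < m ∧ m < p ∧ 2 ≤ b m) →
      (∃ z, p < z ∧ z ≤ k ∧ 2 ≤ b z) →
        (Tr θ k a b i Stt.xy Stt.yx ↔ Ce θ 3 [1, 0, 1, 0] [1, 2, 0, 2] 0 Stt.xy Stt.yx)

/-- **U1L** (uses PS0, PIN).  PROOF.  The maps of U11 (`j0 = m` in block `1`); `f = i, m, p, z`. -/
def U1lStmt : Prop :=
  ∀ β θ : FIC, BaseH β → β ≤ θ → ∀ (k : ℕ) (a b : ℕ → ℕ) (i p : ℕ), Vd k a b i → LL2 k a i p →
    b i = 1 → (∀ j < i, b j = 0) →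
      (∃ m, i < m ∧ m < p ∧ b m = 1 ∧ ∀ j, i < j → j < p → j ≠ m → b j = 0) →
      (∃ z, p < z ∧ z ≤ k ∧ 2 ≤ b z) →
        (Tr θ k a b i Stt.xy Stt.yx ↔ Ce θ 3 [1, 0, 1, 0] [1, 1, 0, 2] 0 Stt.xy Stt.yx)

/-- **UEV** (uses PS0, PIN).  PROOF.  `g j = 0` for `j < i`, `1` for `j = i`, `2` for `i < j`; `f = p, i, m`. -/
def UevStmt : Prop :=
  ∀ β θ : FIC, BaseH β → β ≤ θ → ∀ (k : ℕ) (a b : ℕ → ℕ) (i p : ℕ), Vd k a b i → LL2 k a p i →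
    b i = 1 → (∀ j < i, b j = 0) → (∃ m, i < m ∧ m ≤ k ∧ 2 ≤ b m) →
        (Tr θ k a b i Stt.xy Stt.yx ↔ Ce θ 2 [1, 1, 0] [0, 1, 2] 1 Stt.xy Stt.yx)

/-- **V10** (uses PS0, PIN).  PROOF.  `g j = 0` for `j < i`, `1` for `j = i`, `2` for `i < j < p`, `3` for `p ≤ j`;
`f = q, i, m, p`. -/
def V10Stmt : Prop :=
  ∀ β θ : FIC, BaseH β → β ≤ θ → ∀ (k : ℕ) (a b : ℕ → ℕ) (i p : ℕ), Vd k a b i → LL2 k a i p →
    b i = 1 → (∃ q < i, b q = 1 ∧ ∀ j < i, j ≠ q → b j = 0) → (∃ m, i < m ∧ m < p ∧ 2 ≤ b m) →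
      (∀ j, p < j → j ≤ k → b j = 0) →
        (Tr θ k a b i Stt.xy Stt.yx ↔ Ce θ 3 [0, 1, 0, 1] [1, 1, 2, 0] 1 Stt.xy Stt.yx)

/-- **V01** (uses PS0, PIN).  PROOF.  `g j = 0` for `j < i`, `1` for `j = i`, `2` for `i < j ≤ p`, `3` for `p < j`;
`f = q, i, p, z`. -/
def V01Stmt : Prop :=
  ∀ β θ : FIC, BaseH β → β ≤ θ → ∀ (k : ℕ) (a b : ℕ → ℕ) (i p : ℕ), Vd k a b i → LL2 k a i p →
    b i = 1 → (∃ q < i, b q = 1 ∧ ∀ j < i, j ≠ q → b j = 0) → (∀ j, i < j → j < p → b j = 0) →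
      (∃ z, p < z ∧ z ≤ k ∧ 2 ≤ b z) →
        (Tr θ k a b i Stt.xy Stt.yx ↔ Ce θ 3 [0, 1, 1, 0] [1, 1, 0, 2] 1 Stt.xy Stt.yx)

/-- **VP1** (uses PS0, PIN).  PROOF.  `p < q < i`.  `g j = 0` for `j < q`, `1` for `q ≤ j < i`, `2` for `j = i`, `3` for
`i < j`; `f = p, q, i, m`. -/
def Vp1Stmt : Prop :=
  ∀ β θ : FIC, BaseH β → β ≤ θ → ∀ (k : ℕ) (a b : ℕ → ℕ) (i p : ℕ), Vd k a b i → LL2 k a p i →
    b i = 1 → (∃ q, p < q ∧ q < i ∧ b q = 1 ∧ ∀ j < i, j ≠ q → b j = 0) →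
      (∃ m, i < m ∧ m ≤ k ∧ 2 ≤ b m) →
        (Tr θ k a b i Stt.xy Stt.yx ↔ Ce θ 3 [1, 0, 1, 0] [0, 1, 1, 2] 2 Stt.xy Stt.yx)

/-- **VP2** (uses PS0, PIN).  PROOF.  `q < p < i`.  `g j = 0` for `j < p`, `1` for `p ≤ j < i`, `2` for `j = i`, `3` for
`i < j`; `f = q, p, i, m`. -/
def Vp2Stmt : Prop :=
  ∀ β θ : FIC, BaseH β → β ≤ θ → ∀ (k : ℕ) (a b : ℕ → ℕ) (i p : ℕ), Vd k a b i → LL2 k a p i →
    b i = 1 → (∃ q, q < p ∧ b q = 1 ∧ ∀ j < i, j ≠ q → b j = 0) →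
      (∃ m, i < m ∧ m ≤ k ∧ 2 ≤ b m) →
        (Tr θ k a b i Stt.xy Stt.yx ↔ Ce θ 3 [0, 1, 1, 0] [1, 0, 1, 2] 2 Stt.xy Stt.yx)

/-- **UX1** (uses PSL, PIN).  PROOF.  PSL with `g j = 0` for `j ≤ i`, `1` for `i < j` (the letters `1` in front of block
`i` come from the left); `f = i, p`. -/
def Ux1Stmt : Prop :=
  ∀ β θ : FIC, BaseH β → β ≤ θ → ∀ (k : ℕ) (a b : ℕ → ℕ) (i p : ℕ), Vd k a b i → LL2 k a i p →
    2 ≤ b i → (∀ j, i < j → j ≤ k → b j = 0) →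
        (Tr θ k a b i Stt.yx Stt.ov ↔ Ce θ 1 [1, 1] [2, 0] 0 Stt.yx Stt.ov)

/-- **UX2** (uses PSL, PIN).  PROOF.  PSL with `g j = 0` for `j ≤ p`, `1` for `p < j`; `f = p, i`. -/
def Ux2Stmt : Prop :=
  ∀ β θ : FIC, BaseH β → β ≤ θ → ∀ (k : ℕ) (a b : ℕ → ℕ) (i p : ℕ), Vd k a b i → LL2 k a p i →
    2 ≤ b i → (∀ j < p, b j = 0) → (∀ j, i < j → j ≤ k → b j = 0) →
        (Tr θ k a b i Stt.yx Stt.ov ↔ Ce θ 1 [1, 1] [0, 2] 1 Stt.yx Stt.ov)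

/-- **UX3** (uses PSL, PIN).  PROOF.  PSL with `g j = 0` for `j < p`, `1` for `j = p`, `2` for `p < j`; `f = q, p, i`. -/
def Ux3Stmt : Prop :=
  ∀ β θ : FIC, BaseH β → β ≤ θ → ∀ (k : ℕ) (a b : ℕ → ℕ) (i p : ℕ), Vd k a b i → LL2 k a p i →
    2 ≤ b i → (∃ q < p, b q = 1 ∧ ∀ j < p, j ≠ q → b j = 0) → (∀ j, i < j → j ≤ k → b j = 0) →
        (Tr θ k a b i Stt.yx Stt.ov ↔ Ce θ 2 [0, 1, 1] [1, 0, 2] 2 Stt.yx Stt.ov)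

/-- **UX4** (uses PSL, PIN).  PROOF.  PSL with `g j = 0` for `j < q'`, `1` for `q' ≤ j < p`, `2` for `j = p`, `3` for
`p < j`; `f = q, q', p, i`. -/
def Ux4Stmt : Prop :=
  ∀ β θ : FIC, BaseH β → β ≤ θ → ∀ (k : ℕ) (a b : ℕ → ℕ) (i p : ℕ), Vd k a b i → LL2 k a p i →
    2 ≤ b i →
      (∃ q q', q < q' ∧ q' < p ∧ b q = 1 ∧ b q' = 1 ∧ ∀ j < p, j ≠ q → j ≠ q' → b j = 0) →
      (∀ j, i < j → j ≤ k → b j = 0) →
        (Tr θ k a b i Stt.yx Stt.ov ↔ Ce θ 3 [0, 0, 1, 1] [1, 1, 0, 2] 3 Stt.yx Stt.ov)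

/-! ### the canonical edges are join prime -/

/-- **JLL** (uses MWS.LRN, LT2, JPC, J2S).  Two light letters of degree two.
PROOF.  JPC with `F = fun _ => False`.  First condition: J2S.  Second condition: `b` absorbs at `j ≤ k` in `θ`: LT2
for `b`: `Has (J 2)`, J2S. -/
def JllStmt : Prop :=
  ∀ β : FIC, S8 β → ∀ (k : ℕ) (a b : ℕ → ℕ) (i u v u' v' : ℕ), Vd k a b i → LL2 k a u v →
    LL2 k b u' v' → JPp β (asm k (W a b i Stt.xy), asm k (W a b i Stt.yx))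

/-- **J10** (uses JPC, ABJ, ABO, LHR, J2S).  PROOF.  JPC with `k = 2`, `a = vc [1,0,1]`, `b = vc [1,2,0]`, `i = 0`, `u = 0`,
`v = 2`, `F j := j = 1`.  `J 2`: J2S.  `b` absorbs in `θ` at `0`: ABJ: `b1 = (3,2,0)`, LHR (`p = 2`, `m = 1`) for `b1`.  At
`2`: ABO. -/
def J10Stmt : Prop := ∀ β : FIC, S8 β → JPp β (ce 2 [1, 0, 1] [1, 2, 0] 0 Stt.xy Stt.yx)

/-- **J01** (uses JPC, ABJ, ABO, LHR, J2S).  PROOF.  `F j := j = 2`.  `J 2`: J2S.  At `0`: ABJ, `b1 = (3,0,2)`, LHR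
(`p = 1`, `m = 2`).  At `1`: ABO. -/
def J01Stmt : Prop := ∀ β : FIC, S8 β → JPp β (ce 2 [1, 1, 0] [1, 0, 2] 0 Stt.xy Stt.yx)

/-- **J11** (uses JPC, ABJ, ABO, LHR, J2S).  PROOF.  `F j := j = 1 ∨ j = 3`.  `J 2`: J2S.  At `0`: ABJ, LHR (`p = 2`,
`m = 1`).  At `2`: ABO. -/
def J11Stmt : Prop := ∀ β : FIC, S8 β → JPp β (ce 3 [1, 0, 1, 0] [1, 2, 0, 2] 0 Stt.xy Stt.yx)

/-- **J1L** (uses JPC, ABJ, ABO, LHR, KK9, J2S).  PROOF.  `F j := j = 3`.  `J 2`: J2S.  At `0`: ABJ, `b1 = (3,1,0,2)`,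
LHR (`p = 2`, `m = 3`).  At `1`: ABJ, `b1 = (1,3,0,2)`: KK9.  At `2`: ABO. -/
def J1lStmt : Prop := ∀ β : FIC, H4 β → JPp β (ce 3 [1, 0, 1, 0] [1, 1, 0, 2] 0 Stt.xy Stt.yx)

/-- **JEV** (uses JPC, ABJ, ABO, LHL, J2S).  PROOF.  `F j := j = 2`.  `J 2`: J2S.  At `0`: ABO.  At `1`: ABJ,
`b1 = (0,3,2)`, LHL (2) (`p = 0`, `m = 2`). -/
def JevStmt : Prop := ∀ β : FIC, S8 β → JPp β (ce 2 [1, 1, 0] [0, 1, 2] 1 Stt.xy Stt.yx)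

/-- **K10** (uses JPC, ABJ, ABO, HVJ, LHR, J2S).  PROOF.  `F j := j = 2`.  `J 2`: J2S.  At `0`: ABJ, `b1 = (3,1,2,0)`; HVJ
(`q = 0`): `b2 = (3,3,2,0)`; LHR (`i = 1`, `p = 3`, `m = 2`).  At `1`: ABJ, `b1 = (1,3,2,0)`, LHR.  At `3`: ABO. -/
def K10Stmt : Prop := ∀ β : FIC, S8 β → JPp β (ce 3 [0, 1, 0, 1] [1, 1, 2, 0] 1 Stt.xy Stt.yx)

/-- **K01** (uses JPC, ABJ, ABO, HVJ, LHR, J2S).  PROOF.  `F j := j = 3`.  As K10 with `p = 2`, `m = 3`; at `2`: ABO. -/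
def K01Stmt : Prop := ∀ β : FIC, S8 β → JPp β (ce 3 [0, 1, 1, 0] [1, 1, 0, 2] 1 Stt.xy Stt.yx)

/-- **KP1** (uses JPC, ABJ, ABO, HVJ, LHL, J2S).  PROOF.  `F j := j = 3`.  `J 2`: J2S.  At `0`: ABO.  At `1`: ABJ,
`b1 = (0,3,1,2)`; HVJ (`q = 1`): `b2 = (0,3,3,2)`; LHL (2) (`i = 2`, `p = 0`, `m = 3`).  At `2`: ABJ, LHL (2). -/
def Kp1Stmt : Prop := ∀ β : FIC, S8 β → JPp β (ce 3 [1, 0, 1, 0] [0, 1, 1, 2] 2 Stt.xy Stt.yx)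

/-- **KP2** (uses JPC, ABJ, ABO, HVJ, LHL, J2S).  PROOF.  `F j := j = 3`.  `J 2`: J2S.  At `0`: ABJ, HVJ (`q = 0`), LHL
(2) (`i = 2`, `p = 1`, `m = 3`).  At `1`: ABO.  At `2`: ABJ, LHL (2). -/
def Kp2Stmt : Prop := ∀ β : FIC, S8 β → JPp β (ce 3 [0, 1, 1, 0] [1, 0, 1, 2] 2 Stt.xy Stt.yx)

/-- **JX1** (uses JPC, ABO, J2S).  PROOF.  `F j := j = 0`.  `J 2`: J2S (`2 ≤ b i`).  At `1`: ABO. -/
def Jx1Stmt : Prop := ∀ β : FIC, S8 β → JPp β (ce 1 [1, 1] [2, 0] 0 Stt.yx Stt.ov)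

/-- **JX2** (uses JPC, ABO, J2S).  PROOF.  `F j := j = 1`.  `J 2`: J2S.  At `0`: ABO. -/
def Jx2Stmt : Prop := ∀ β : FIC, S8 β → JPp β (ce 1 [1, 1] [0, 2] 1 Stt.yx Stt.ov)

/-- **JX3** (uses JPC, ABJ, ABO, LHL, J2S).  PROOF.  `F j := j = 2`.  `J 2`: J2S.  At `0`: ABJ, `b1 = (3,0,2)`, LHL (3)
(`i = 2`, `p = 1`, `q = 0`).  At `1`: ABO. -/
def Jx3Stmt : Prop := ∀ β : FIC, S8 β → JPp β (ce 2 [0, 1, 1] [1, 0, 2] 2 Stt.yx Stt.ov)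

/-- **JX4** (uses JPC, ABJ, ABO, LHL, J2S).  PROOF.  `F j := j = 3`.  `J 2`: J2S.  At `0`: ABJ, LHL (3) (`i = 3`, `p = 2`,
`q = 0`).  At `1`: ABJ, LHL (3) (`q = 1`).  At `2`: ABO. -/
def Jx4Stmt : Prop := ∀ β : FIC, S8 β → JPp β (ce 3 [0, 0, 1, 1] [1, 1, 0, 2] 3 Stt.yx Stt.ov)

/-! ### the lists of edges -/

/-- the transitions `xy - ov` and `yx - ov` are described by join prime pairs -/
def Eg2 (β : FIC) (k : ℕ) (a b : ℕ → ℕ) (i : ℕ) : Prop :=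
  Eg β k a b i Stt.xy Stt.ov ∧ Eg β k a b i Stt.yx Stt.ov

/-- **EHH** (uses KHH).  PROOF.  `L = []`, `Tr θ` from `TrA β` (`h _ _ hr`). -/
def EhhStmt : Prop :=
  ∀ β : FIC, S8 β → ∀ (k : ℕ) (a b : ℕ → ℕ) (i : ℕ), Vd k a b i → 2 ≤ a i → 2 ≤ b i →
    Eg2 β k a b i

/-- **ENL** (uses MWS.LRN, LT3, KK1).  PROOF.  `LR 1` by LRN (`β ≤ β`).  LT3: a heavy block `m > i` of `a`; KK1 (second
case): `TrA`; `L = []`. -/
def EnlStmt : Prop :=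
  ∀ β : FIC, S8J β → ∀ (k : ℕ) (a b : ℕ → ℕ) (i : ℕ), Vd k a b i → Nrm (FC.ofFIC β) k a →
    (∀ u v, ¬ LL2 k a u v) → a i = 1 → 2 ≤ b i → Eg2 β k a b i

/-- **ERI** (uses MWS.LRN, LT4, LHR, UX1, JX1).  PROOF.  `xy - ov`: LHR (1), `L = []`.  `yx - ov`: if there is `m`, `i < m ≤ k`
with `b m ≠ 0`: LT4 (1) (`2 ≤ b i`, `i ≤ m`): `2 ≤ b m`; LHR (2): `L = []`.  Otherwise UX1, JX1:
`L = [ce 1 [1,1] [2,0] 0 yx ov]`. -/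
def EriStmt : Prop :=
  ∀ β : FIC, S8 β → ∀ (k : ℕ) (a b : ℕ → ℕ) (i p : ℕ), Vd k a b i → Nrm (FC.ofFIC β) k b →
    LL2 k a i p → 2 ≤ b i → Eg2 β k a b i

/-- **EL4** (uses MWS.LRN, LT4, BJ4, LHL, UX2, UX3, UX4, JX2, JX3, JX4).  PROOF.  `xy - ov`: LHL (1), `L = []`.
`yx - ov`: if `b m ≠ 0` for some `m > i`: `2 ≤ b m` (LT4 (1)), LHL (2), `L = []`.  If `2 ≤ b q` for some `q < p`: LHL (3).
Otherwise `b j ≤ 1` for `j < p`; let `S` be the set of the `j < p` with `b j = 1`.  `S` has at most two elements: for the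
third one `lb b j ≥ 2`, LT4 (2) (`J 3` by BJ4): `2 ≤ b j`.  No element: UX2, JX2; one: UX3, JX3; two: UX4, JX4. -/
def El4Stmt : Prop :=
  ∀ β : FIC, H4 β → ∀ (k : ℕ) (a b : ℕ → ℕ) (i p : ℕ), Vd k a b i → Nrm (FC.ofFIC β) k b →
    LL2 k a p i → 2 ≤ b i → Eg2 β k a b i

/-- **EL5** (uses MWS.LRN, LT4, BJ5, LHL, UX2, UX3, JX2, JX3).  PROOF.  As EL4; `S` has at most one element: for the
second one `lb b j ≥ 1`, LT4 (3) (`J 3`, `D 1` by BJ5; `b` is not `LL2` because `2 ≤ b i`): `2 ≤ b j`. -/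
def El5Stmt : Prop :=
  ∀ β : FIC, H5 β → ∀ (k : ℕ) (a b : ℕ → ℕ) (i p : ℕ), Vd k a b i → Nrm (FC.ofFIC β) k b →
    LL2 k a p i → 2 ≤ b i → Eg2 β k a b i

/-- **ENN** (uses MWS.LRN, LT3, KK2).  PROOF.  LT3 for `a` and `b`; KK2; `L = []`. -/
def EnnStmt : Prop :=
  ∀ β : FIC, S8J β → ∀ (k : ℕ) (a b : ℕ → ℕ) (i : ℕ), Vd k a b i → Nrm (FC.ofFIC β) k a →
    Nrm (FC.ofFIC β) k b → (∀ u v, ¬ LL2 k a u v) → (∀ u v, ¬ LL2 k b u v) → a i = 1 → b i = 1 →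
      Eg β k a b i Stt.xy Stt.yx

/-- **EG4** (uses MWS.LRN, LT3, LT4, BJ4, KK9, U10, U01, U1L, V10, V01, J10, J01, J1L, K10, K01).
PROOF.  LT3: there is a heavy block of `b` behind `i`.  Before `i`: all entries of `b` are `≤ 1` (otherwise LT4 (1) gives
`2 ≤ b i`), and at most one is `1` (otherwise `lb b i ≥ 2`, LT4 (2)).
(A) `b j = 0` for all `j < i`.  (A1) `b j = 0` for all `j > p`: the heavy block is in `i < m < p` (`b p = 0` by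
`Vd.un`): U10, J10.  (A2) `b z ≠ 0` for some `z > p` and `b j = 0` for `i < j < p`: the heavy block is behind `p`:
U01, J01.  (A3) `b z ≠ 0`, `z > p`, and `b m ≠ 0` for some `i < m < p`: then `2 ≤ b z` (`lb b z ≥ 2`: the blocks `i`, `m`,
LT4 (2)).  If some `m` between `i` and `p` has `2 ≤ b m`: KK9, `L = []`.  Otherwise exactly one `m` between `i` and `p` has
`b m = 1` (for a second one `lb ≥ 2`): U1L, J1L.
(B) `b q = 1` for exactly one `q < i`: all non-zero entries behind `i` are `≥ 2` (`lb ≥ 2`).  (B1) nothing behind `p`: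
V10, K10.  (B2) nothing between `i` and `p`: V01, K01.  (B3) both: KK9, `L = []`. -/
def Eg4Stmt : Prop :=
  ∀ β : FIC, H4 β → ∀ (k : ℕ) (a b : ℕ → ℕ) (i p : ℕ), Vd k a b i → Nrm (FC.ofFIC β) k b →
    LL2 k a i p → (∀ u v, ¬ LL2 k b u v) → b i = 1 → Eg β k a b i Stt.xy Stt.yx

/-- **EG5** (uses MWS.LRN, LT3, LT4, BJ5, U10, U01, U11, J10, J01, J11).  PROOF.  LT3: a heavy block of `b` behind
`i`.  `b j = 0` for `j < i` (otherwise `lb b i ≥ 1`, LT4 (3) gives `2 ≤ b i`), and all non-zero entries behind `i` are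
`≥ 2` (LT4 (3)).  Nothing behind `p`: U10, J10; nothing between `i` and `p`: U01, J01; both: U11, J11. -/
def Eg5Stmt : Prop :=
  ∀ β : FIC, H5 β → ∀ (k : ℕ) (a b : ℕ → ℕ) (i p : ℕ), Vd k a b i → Nrm (FC.ofFIC β) k b →
    LL2 k a i p → (∀ u v, ¬ LL2 k b u v) → b i = 1 → Eg β k a b i Stt.xy Stt.yx

/-- **EK4** (uses MWS.LRN, LT3, LT4, BJ4, UEV, VP1, VP2, JEV, KP1, KP2).  PROOF.  LT3: `2 ≤ b m`, `m > i`.  Before `i` at most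
one non-zero entry, and it is `1` (as in EG4).  None: UEV, JEV.  One, at `q` (`q ≠ p` by `Vd.un`): `p < q`: VP1, KP1;
`q < p`: VP2, KP2. -/
def Ek4Stmt : Prop :=
  ∀ β : FIC, H4 β → ∀ (k : ℕ) (a b : ℕ → ℕ) (i p : ℕ), Vd k a b i → Nrm (FC.ofFIC β) k b →
    LL2 k a p i → (∀ u v, ¬ LL2 k b u v) → b i = 1 → Eg β k a b i Stt.xy Stt.yx

/-- **EK5** (uses MWS.LRN, LT3, LT4, BJ5, UEV, JEV).  PROOF.  LT3: `2 ≤ b m`, `m > i`; `b j = 0` for `j < i` (as in EG5):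
UEV, JEV. -/
def Ek5Stmt : Prop :=
  ∀ β : FIC, H5 β → ∀ (k : ℕ) (a b : ℕ → ℕ) (i p : ℕ), Vd k a b i → Nrm (FC.ofFIC β) k b →
    LL2 k a p i → (∀ u v, ¬ LL2 k b u v) → b i = 1 → Eg β k a b i Stt.xy Stt.yx

/-- **EDC** (uses SWT, EDV, EHH, ENL, ERI, ENN, JLL).  The common assembly.
PROOF.  EDV.  Let `2 ≤ b i`.  `2 ≤ a i`: EHH.  `a i = 1`: if `a` is not `LL2`: ENL.  If `LL2 k a u v`: `i = u` (ERI) or
`i = v` (hypothesis `hL`) since `a i ≠ 0`.  Let `a i = b i = 1`.  Both not `LL2`: ENN.  Both `LL2`: JLL,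
`L = [(asm k (W a b i xy), asm k (W a b i yx))]`.  `a` is `LL2` and `b` is not: `i = u`: `hR`, `i = v`: `hK`.  `b` is `LL2` and
`a` is not: `hR` or `hK` for `b, a` (`Vd` by SWT) and SWT: `Tr θ k b a i xy yx ↔ Tr θ k a b i yx xy`, and `RR.symm`. -/
def EdcStmt : Prop :=
  ∀ β : FIC, S8J β →
    (∀ (k : ℕ) (a b : ℕ → ℕ) (i p : ℕ), Vd k a b i → Nrm (FC.ofFIC β) k b →
      LL2 k a p i → 2 ≤ b i → Eg2 β k a b i) →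
    (∀ (k : ℕ) (a b : ℕ → ℕ) (i p : ℕ), Vd k a b i → Nrm (FC.ofFIC β) k b →
      LL2 k a i p → (∀ u v, ¬ LL2 k b u v) → b i = 1 → Eg β k a b i Stt.xy Stt.yx) →
    (∀ (k : ℕ) (a b : ℕ → ℕ) (i p : ℕ), Vd k a b i → Nrm (FC.ofFIC β) k b →
      LL2 k a p i → (∀ u v, ¬ LL2 k b u v) → b i = 1 → Eg β k a b i Stt.xy Stt.yx) →
    EdgeP β

/-- **DI4** (uses MWS.TLM, SWH, BJ4, EDC, EL4, EG4, EK4).  PROOF.  EDC, TLM. -/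
def Di4Stmt : Prop := ∀ β : FIC, H4 β → DistF β

/-- **DI5** (uses MWS.TLM, SWH, BJ5, EDC, EL5, EG5, EK5).  PROOF.  EDC, TLM. -/
def Di5Stmt : Prop := ∀ β : FIC, H5 β → DistF β

end Pool.Agent.MWH
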