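import Pool.Agent.MWH.StmtsA

/-!
# Block MWH, part B: killed transitions (systems h3, h4, h5) (rows)

Rules for the rows as in `StmtsA.lean` (import `Pool.Agent.MWH.StmtsB`).  How to use an identity of a
system: `asm k0 (W (vc la) (vc lb) i0 s)` with explicit lists is a concrete list of numbers
(`decide`, `rfl` or `simp [asm, W, blk, vc]`), so for example `S8.k1` is
`Tr β 1 (vc [2, 0]) (vc [1, 2]) 0 xy yx`; push it with PIN.  The table of the identities of `S8`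
(`k0; la; lb; i0; states`): `k1`: `1; [2,0]; [1,2]; 0; xy yx`.  `k2`: `2; [1,2,0]; [1,0,2]; 0; xy yx`.
`k3`: `2; [1,1,0]; [2,0,2]; 0; xy yx`.  `k4`: `1; [1,1]; [0,2]; 1; xy ov`.  `k5`: `2; [0,2,2]; [1,1,0]; 1; xy ov`.
`k6`: `1; [1,1]; [2,0]; 0; xy ov`.  `k7`: `2; [2,2,0]; [1,0,1]; 0; xy ov`.  `k8`: `2; [0,1,1]; [2,0,2]; 2; xy yx`.
`H4.k9`: `3; [1,0,1,0]; [1,2,0,2]; 0; xy yx`.  `H3`: `t1`: `2; [1,1,0]; [1,0,2]; 0; xy yx`.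
`t2`: `2; [1,1,0]; [0,1,2]; 1; xy yx`.  `t3`: `2; [1,2,0]; [1,0,1]; 0; xy yx`.  `t4`: `1; [2,0]; [1,1]; 0; xy yx`.
`t5`: `1; [1,1]; [0,2]; 1; xy yx`.
-/

namespace Pool.Agent.MWH

open Pool.Agent.Helper14_MV Pool.Agent.Helper2_MV Pool.Agent.MVO Pool.Agent.MWL Pool.Agent.MWS

/-- **PIN** (uses PS0).  Push with a strictly increasing map.
PROOF.  PS0 with the same `f` (`BMap k0 k f` from the strict monotonicity on `0..k0`).  `Dm` for `a0`, `a`: let `j' ≤ k`.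
If `2 ≤ a j'`: first case.  If `a j' = 1`: if `j' = f j0` with `j0 ≤ k0`, second case with this `j0` (`a0 j0 ≤ 1`
because `2 ≤ a0 j0` would give `2 ≤ a j'`; no other `j ≤ k0` has `f j = j'`); if `j'` is not a value: third case.
If `a j' = 0`: third case (`a0 j ≠ 0` gives `a (f j) ≠ 0`).  The same for `b`.  The condition on the common block
is empty because `f` is injective on `0..k0` (`i0 ≤ k0` by `Vd`). -/
def PinStmt : Prop :=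
  ∀ β θ : FIC, BaseH β → β ≤ θ → ∀ (k0 k : ℕ) (f a0 b0 a b : ℕ → ℕ) (i0 : ℕ),
    (∀ j < k0, f j < f (j + 1)) → f k0 ≤ k → Vd k0 a0 b0 i0 → Vd k a b (f i0) →
      (∀ j ≤ k0, (a0 j ≠ 0 → a (f j) ≠ 0) ∧ (2 ≤ a0 j → 2 ≤ a (f j)) ∧
        (b0 j ≠ 0 → b (f j) ≠ 0) ∧ (2 ≤ b0 j → 2 ≤ b (f j))) →
        (a0 i0 = 1 ↔ a (f i0) = 1) → (b0 i0 = 1 ↔ b (f i0) = 1) →
          ∀ s s' : Stt, Vs a0 b0 i0 s → Vs a0 b0 i0 s' →
            Tr θ k0 a0 b0 i0 s s' → Tr θ k a b (f i0) s s'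

/-- all transitions -/
def TrA (θ : FIC) (k : ℕ) (a b : ℕ → ℕ) (i : ℕ) : Prop :=
  ∀ s s' : Stt, Vs a b i s → Vs a b i s' → Tr θ k a b i s s'

/-- **KHH** (uses NFE, OKW, SWT, PIN).  Two heavy letters in a block commute.
PROOF.  `k4`, `rr` substitution `2 ↦ []` (`RR.sub`): `[0,0,1,1] ≈ [0,1,0,1]`; the second word is `RR β` to
`asm 0 (W (vc [2]) (vc [2]) 0 ov) = [0,1,1,0]` by NFE.  So `Tr β 0 (vc [2]) (vc [2]) 0 xy ov`; SWT: `yx ov`; so all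
transitions (symmetry, transitivity).  PIN with `k0 = 0`, `f = fun _ => i`. -/
def KhhStmt : Prop :=
  ∀ β : FIC, S8 β → ∀ (k : ℕ) (a b : ℕ → ℕ) (i : ℕ), Vd k a b i → 2 ≤ a i → 2 ≤ b i →
    TrA β k a b i

/-- **KK1** (uses SWT, ALL, PIN, KHH).  `k1`.
PROOF.  First case.  If `2 ≤ b i`: KHH.  If `b i = 1`: PIN for `k1` (`f 0 = i`, `f 1 = m`): `Tr β k a b i xy yx`; ALL
gives the rest.  Second case: SWT. -/
def Kk1Stmt : Prop :=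
  ∀ β : FIC, S8 β → ∀ (k : ℕ) (a b : ℕ → ℕ) (i : ℕ), Vd k a b i →
    ((2 ≤ a i ∧ ∃ m, i < m ∧ m ≤ k ∧ 2 ≤ b m) ∨ (2 ≤ b i ∧ ∃ m, i < m ∧ m ≤ k ∧ 2 ≤ a m)) →
      TrA β k a b i

/-- **KK2** (uses SWT, PIN).  `k2`.
PROOF.  `m ≠ n` by `Vd.un`.  `m < n`: PIN for `k2` with `f = i, m, n`.  `n < m`: SWT (`xy`, `yx` are exchanged, use the
symmetry of `RR`) and PIN with `f = i, n, m`. -/
def Kk2Stmt : Prop :=
  ∀ β : FIC, S8 β → ∀ (k : ℕ) (a b : ℕ → ℕ) (i : ℕ), Vd k a b i → a i = 1 → b i = 1 →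
    (∃ m, i < m ∧ m ≤ k ∧ 2 ≤ a m) → (∃ n, i < n ∧ n ≤ k ∧ 2 ≤ b n) → TrA β k a b i

/-- **LHR** (uses SWT, PIN).  Light `0`, heavy `1`, another block of `0` on the right (`k6`, `k7`, `k3`).
PROOF.  (1) PIN for `k6` with `f = i, p`.  (2) `m ≠ p` by `Vd.un`.  `m < p`: SWT and PIN for `k7` with
`f = i, m, p`, where `k7` is about the types `b, a`: it gives `Tr β k b a i xy ov`, i.e. `Tr β k a b i yx ov`.
`p < m`: PIN for `k3` with `f = i, p, m`: `Tr β k a b i xy yx`, with (1): `yx ~ xy ~ ov`. -/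
def LhrStmt : Prop :=
  ∀ β : FIC, S8 β → ∀ (k : ℕ) (a b : ℕ → ℕ) (i p : ℕ), Vd k a b i → a i = 1 → 2 ≤ b i →
    i < p → p ≤ k → a p ≠ 0 → Tr β k a b i Stt.xy Stt.ov ∧
      ((∃ m, i < m ∧ m ≤ k ∧ 2 ≤ b m) → TrA β k a b i)

/-- **LHL** (uses SWT, PIN).  Light `0`, heavy `1`, another block of `0` on the left (`k4`, `k5`, `k8`).
PROOF.  (1) PIN for `k4` with `f = p, i`.  (2) `k5` is about the types `b, a`: PIN with `f = p, i, m` for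
`Vd k b a i` gives `Tr β k b a i xy ov`, SWT: `Tr β k a b i yx ov`; with (1) all.  (3) PIN for `k8` with `f = q, p, i`:
`xy ~ yx`; with (1) all. -/
def LhlStmt : Prop :=
  ∀ β : FIC, S8 β → ∀ (k : ℕ) (a b : ℕ → ℕ) (i p : ℕ), Vd k a b i → a i = 1 → 2 ≤ b i →
    p < i → a p ≠ 0 → Tr β k a b i Stt.xy Stt.ov ∧
      ((∃ m, i < m ∧ m ≤ k ∧ 2 ≤ b m) → TrA β k a b i) ∧
      ((∃ q, q < p ∧ 2 ≤ b q) → TrA β k a b i)

/-- **KK9** (uses PIN).  `k9`.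
PROOF.  PIN for `k9` with `f = i, m, p, z`. -/
def Kk9Stmt : Prop :=
  ∀ β : FIC, H4 β → ∀ (k : ℕ) (a b : ℕ → ℕ) (i m p z : ℕ), Vd k a b i → a i = 1 → b i = 1 →
    i < m → m < p → p < z → z ≤ k → 2 ≤ b m → a p ≠ 0 → 2 ≤ b z → TrA β k a b i

/-- **BJ4** (uses nothing).  The bit `J 3` in h4.
PROOF.  `Has 1 R (J 3)` is `L1 β 2 (1,1,1) (1,1,3)`, i.e. `RR β [0,2,0,3,0] [0,2,0,3,0,0,0]` (unfold `Has`, `Ab`,
`Bit.k`, `Bit.a`, `Bit.i`, `ad`, `mw`, `asm`).  `j3`, and `j3` with `[0]` appended. -/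
def Bj4Stmt : Prop := ∀ β : FIC, H4 β → S8J β

/-- **BJ5** (uses nothing).  The bits `J 3`, `D 1` in h5.
PROOF.  Let `u = [0,2,0,3,0]`, `v = [0,2,0,0,3,0,0]`, `u ≈ v` (`j3`).  `J 3`: `u ++ [0,0] ≈ v ++ [0,0] ≈ v` (`ap` twice),
so `u ≈ u ++ [0,0] = [0,2,0,3,0,0,0]`.  `D 1` is `RR β [0,2,0,3,0,0] [0,2,0,0,0,3,0,0]` (base vector `(1,1,2)`,
`i = 1`): `u ++ [0] ≈ v ++ [0] ≈ v`; `j3` with the substitution `3 ↦ [0,0,3]`, then `[0]` appended: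
`[0,2,0,0,0,3,0,0] ≈ [0,2,0,0,0,0,3,0,0,0] ≈ v`. -/
def Bj5Stmt : Prop := ∀ β : FIC, H5 β → S8J β ∧ Has 1 (FC.ofFIC β) (Bit.D 1)

/-- **HVJ** (uses MWS.LRN, MWL.HVP, ABJ).  A heavy block before `i` makes `b` heavy in block `i`.
PROOF.  `Hv b i` (`b i ≠ 0`, `2 ≤ b q`, `q ≤ i`), HVP (`LRN`): `b` absorbs at `i` in `β`.  ABJ for `θ = β`, `j = i`:
`RR β (asm k (W a b i s)) (asm k (W a (ad 1 b i) i s))` for `s`, `s'`. -/
def HvjStmt : Prop :=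
  ∀ β : FIC, BaseH β → ∀ (k : ℕ) (a b : ℕ → ℕ) (i q : ℕ), Vd k a b i → q ≤ i → 2 ≤ b q →
    Vd k a (ad 1 b i) i ∧ ∀ θ : FIC, β ≤ θ → ∀ s s' : Stt, Vs a b i s → Vs a b i s' →
      (Tr θ k a b i s s' ↔ Tr θ k a (ad 1 b i) i s s')

/-- **J2S** (uses MWS.LRN, LT2, ABI, ABJ, KHH, KK1, KK2).  If `θ` contains `J 2` then a light letter of
degree two has no visible transitions.
PROOF.  `LR 1 (FC.ofFIC θ)` (LRN).  LT2 (2): `a` absorbs at `v` in `θ`.  ABI (`j = v`: if `v ≠ i` then `b v = 0` by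
`Vd.un`): it is enough to show `Tr θ k a1 b i s s'` for `a1 = ad 1 a v` (`Vs a1 b i s`; transitivity), `2 ≤ a1 v`.
`i = u` or `i = v` because `a i ≠ 0`.
Case `i = u` (`a1 i = 1`, `2 ≤ a1 v`, `v > i`): if `2 ≤ b i`: KK1.  If `b i = 1` and there is `m > i` with `2 ≤ b m`: KK2.  If
`LL2 k b u' v'`: `b` absorbs at `v'` in `θ`, ABJ (for `a1`, `b`): `b1 = ad 1 b v'`; if `v' = i`: `2 ≤ b1 i`, KK1; if `u' = i`:
`v' > i`, `b1 i = 1`, `2 ≤ b1 v'`: KK2.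
Case `i = v` (`2 ≤ a1 i`): if `2 ≤ b i`: KHH.  If `2 ≤ b m` for some `m > i`: KK1.  If `LL2 k b u' v'`: `b1` as above, `v' = i`: KHH,
`u' = i`: KK1. -/
def J2sStmt : Prop :=
  ∀ β θ : FIC, S8 β → β ≤ θ → Has 1 (FC.ofFIC θ) (Bit.J 2) → ∀ (k : ℕ) (a b : ℕ → ℕ) (i u v : ℕ),
    Vd k a b i → LL2 k a u v →
      ((∃ u' v', LL2 k b u' v') ∨ 2 ≤ b i ∨ (b i = 1 ∧ ∃ m, i < m ∧ m ≤ k ∧ 2 ≤ b m)) →
        TrA θ k a b i

/-! ### the system h3 -/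

/-- **TLH** (uses SWT, ALL, PIN).  In h3 a heavy letter commutes with every letter.
PROOF.  If `2 ≤ a i`: `t5` with `2 ↦ []`: `[0,0,1,1] ≈ [0,1,1,0]`, i.e. `Tr β 0 (vc [2]) (vc [2]) 0 xy ov`; SWT: `yx ov`;
PIN with `k0 = 0`.  If `a i = 1`: since `2 ≤ deg k a` there is `p ≤ k`, `p ≠ i` with `a p ≠ 0`.  `p > i`: `t4` is about a heavy
letter and a light letter with a block behind: PIN for `Vd k b a i` (SWT), `f = i, p`: `Tr β k b a i xy yx`; ALL;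
SWT back.  `p < i`: PIN for `t5` with `f = p, i`: `Tr β k a b i xy yx`; ALL. -/
def TlhStmt : Prop :=
  ∀ β : FIC, H3 β → ∀ (k : ℕ) (a b : ℕ → ℕ) (i : ℕ), Vd k a b i → 2 ≤ b i → TrA β k a b i

/-- **TLL** (uses SWT, PIN).  In h3 a light letter with a heavy block behind commutes with light letters.
PROOF.  There is `p ≤ k`, `p ≠ i`, with `a p ≠ 0` (`2 ≤ deg k a`, `a i = 1`), `p ≠ m`.  `p < i`: PIN for `t2` with
`f = p, i, m`.  `i < p < m`: PIN for `t1` with `f = i, p, m`.  `m < p`: `t3` for `Vd k b a i` with `f = i, m, p`, SWT. -/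
def TllStmt : Prop :=
  ∀ β : FIC, H3 β → ∀ (k : ℕ) (a b : ℕ → ℕ) (i m : ℕ), Vd k a b i → a i = 1 → b i = 1 →
    i < m → m ≤ k → 2 ≤ b m → TrA β k a b i

/-- **TJP** (uses MWS.LRN, MWL.HVP, SWT, JPX, ABI, ABJ, ABO, TLH, TLL).  The edges of h3.
PROOF.  JPX with `F = fun _ => False`.  Let `θ ≥ β` and not `Tr θ k a b i xy yx`.  Suppose `a` absorbs at `j ≤ k` in `θ`.  If
`j ≠ i` and `b j ≠ 0`: ABO gives `Tr`.  Otherwise ABI: `a1 = ad 1 a j`; it is enough that `Tr θ k a1 b i xy yx`.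
`j = i`: `2 ≤ a1 i`: TLH for `b, a1` and SWT.  `j < i`: `Hv a1 i`, so `a1` absorbs at `i` in `β` (HVP, LRN), ABI for `θ = β`:
`a2 = ad 1 a1 i`, `2 ≤ a2 i`: TLH, SWT.  `j > i`: `a1 i = 1`, `2 ≤ a1 j`: TLL for `b, a1` and SWT.  The same for `b` with ABJ. -/
def TjpStmt : Prop :=
  ∀ β : FIC, H3 β → ∀ (k : ℕ) (a b : ℕ → ℕ) (i : ℕ), Vd k a b i → (∀ j ≤ k, a j ≤ 1) →
    (∀ j ≤ k, b j ≤ 1) → JPp β (asm k (W a b i Stt.xy), asm k (W a b i Stt.yx))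

/-- **TEP** (uses MWS.LRN, MWL.HVP, SWT, EDV, TLH, TLL, TJP).  `EdgeP` for h3.
PROOF.  EDV.  `2 ≤ b i`: TLH, the lists are empty.  `a i = 1 = b i`: if some `m ≤ k` has `2 ≤ b m`: `m ≠ i`; `m < i` would
give `Hv b i`, so `b` absorbs at `i` (HVP) and `2 ≤ b i` by `Nrm`; so `m > i`: TLL, `L = []`.  If some `m ≤ k` has `2 ≤ a m`:
the same with SWT.  Otherwise `L = [(asm k (W a b i xy), asm k (W a b i yx))]`, TJP. -/
def TepStmt : Prop := ∀ β : FIC, H3 β → EdgeP β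

/-- **TDI** (uses MWS.TLM, SWH, TEP).  PROOF.  TLM; `BaseR`, `Itr` from `BaseH`. -/
def TdiStmt : Prop := ∀ β : FIC, H3 β → DistF β

end Pool.Agent.MWH
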