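import Pool.Agent.MWS.StmtsB

/-!
# Base (h): the LR world (definitions)

Block MWH of the full answer to MP_23468a_al: sufficiency in the base (h).  `x² ≈ x³`,
`x² t x ≈ x² t x²`, `xyxy ≈ yxyx`, interior occurrences of a letter in a block are free (`Itr`), two
letters with another common block commute (`Cm2`).  For two letters `0`, `1` with exactly one
common block `i` there are three states in block `i`: all `0` before all `1` (`xy`), all `1` before all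
`0` (`yx`), overlapping (`ov`).
-/

namespace Pool.Agent.MWH

open Pool.Agent.Helper14_MV Pool.Agent.Helper2_MV Pool.Agent.MVO Pool.Agent.MWL Pool.Agent.MWS

/-- two letters with another common block commute -/
def Cm2 (β : FIC) : Prop :=
  ∀ (k : ℕ) (C : ℕ → List ℕ), OkB k C → ∀ i ≤ k, ∀ j ≤ k, j ≠ i →
    ∀ (A D : List ℕ) (x y : ℕ), C i = A ++ x :: y :: D → x ≠ y → x ∈ C j → y ∈ C j →
      RR β (asm k C) (asm k (Function.update C i (A ++ y :: x :: D)))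

/-- the base (h) -/
structure BaseH (β : FIC) : Prop extends BaseR β where
  itr : Itr β
  cm2 : Cm2 β

/-- the states of two letters in their common block -/
inductive Stt where
  | xy : Stt
  | yx : Stt
  | ov : Stt
  deriving DecidableEq

/-- exchange of the two letters -/
def Stt.sw : Stt → Stt
  | Stt.xy => Stt.yx
  | Stt.yx => Stt.xy
  | Stt.ov => Stt.ov

/-- a block with `p` letters `0` and `q` letters `1` in a given state -/
def blk (p q : ℕ) : Stt → List ℕ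
  | Stt.xy => List.replicate p 0 ++ List.replicate q 1
  | Stt.yx => List.replicate q 1 ++ List.replicate p 0
  | Stt.ov => if 2 ≤ p then 0 :: (List.replicate q 1 ++ List.replicate (p - 1) 0)
      else 1 :: (List.replicate p 0 ++ List.replicate (q - 1) 1)

/-- the two letter word of the types `a`, `b` with the state `s` in block `i` -/
def W (a b : ℕ → ℕ) (i : ℕ) (s : Stt) : ℕ → List ℕ := fun j =>
  if j = i then blk (a i) (b i) s else List.replicate (a j) 0 ++ List.replicate (b j) 1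

/-- admissible types: `i` is the only common block, both letters are multiple -/
structure Vd (k : ℕ) (a b : ℕ → ℕ) (i : ℕ) : Prop where
  ik : i ≤ k
  ai : a i ≠ 0
  bi : b i ≠ 0
  un : ∀ j ≤ k, j ≠ i → a j = 0 ∨ b j = 0
  da : 2 ≤ deg k a
  db : 2 ≤ deg k b

/-- the state `ov` needs at least two occurrences of one of the letters -/
def Vs (a b : ℕ → ℕ) (i : ℕ) (s : Stt) : Prop := s = Stt.ov → 2 ≤ a i ∨ 2 ≤ b i

/-- the transition from the state `s` to the state `s'` -/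
def Tr (θ : FIC) (k : ℕ) (a b : ℕ → ℕ) (i : ℕ) (s s' : Stt) : Prop :=
  RR θ (asm k (W a b i s)) (asm k (W a b i s'))

/-- `a`, pushed with `f`, is not larger than `a'` up to entries `≥ 2` -/
def Dm (k k' : ℕ) (f a a' : ℕ → ℕ) : Prop :=
  ∀ j' ≤ k', 2 ≤ a' j' ∨
    (a' j' = 1 ∧ ∃ j0, a j0 ≤ 1 ∧ ∀ j ≤ k, f j = j' → j ≠ j0 → a j = 0) ∨
    (∀ j ≤ k, f j = j' → a j = 0)

/-- normal vectors: an entry which absorbs is at least two -/
def Nrm (R : FC) (k : ℕ) (a : ℕ → ℕ) : Prop := ∀ j ≤ k, a j ≠ 0 → Ab 1 R k a j → 2 ≤ a j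

/-- a transition is described by a list of join prime pairs -/
def Eg (β : FIC) (k : ℕ) (a b : ℕ → ℕ) (i : ℕ) (s s' : Stt) : Prop :=
  ∃ L : List (List ℕ × List ℕ), (∀ e ∈ L, JPp β e) ∧
    ∀ θ : FIC, β ≤ θ → NC2 θ → (Tr θ k a b i s s' ↔ ∀ e ∈ L, RR θ e.1 e.2)

/-- the light letter of degree two in the blocks `u < v` -/
structure LL2 (k : ℕ) (a : ℕ → ℕ) (u v : ℕ) : Prop where
  uv : u < v
  vk : v ≤ k
  au : a u = 1
  av : a v = 1
  az : ∀ j ≤ k, j ≠ u → j ≠ v → a j = 0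

/-- a vector given by a list -/
def vc (l : List ℕ) : ℕ → ℕ := fun j => l.getD j 0

/-- the eight identities of the systems h4 and h5 -/
structure S8 (β : FIC) : Prop extends BaseH β where
  k1 : RR β [0, 0, 1, 2, 1, 1] [1, 0, 0, 2, 1, 1]
  k2 : RR β [0, 1, 2, 0, 0, 3, 1, 1] [1, 0, 2, 0, 0, 3, 1, 1]
  k3 : RR β [0, 1, 1, 2, 0, 3, 1, 1] [1, 1, 0, 2, 0, 3, 1, 1]
  k4 : RR β [0, 2, 0, 1, 1] [0, 2, 1, 0, 1]
  k5 : RR β [1, 2, 0, 0, 1, 3, 0, 0] [1, 2, 0, 1, 0, 3, 0, 0]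
  k6 : RR β [0, 1, 1, 2, 0] [1, 0, 1, 2, 0]
  k7 : RR β [0, 0, 1, 2, 0, 0, 3, 1] [0, 1, 0, 2, 0, 0, 3, 1]
  k8 : RR β [1, 1, 2, 0, 3, 0, 1, 1] [1, 1, 2, 0, 3, 1, 1, 0]

/-- the system h4 -/
structure H4 (β : FIC) : Prop extends S8 β where
  j3 : RR β [0, 2, 0, 3, 0] [0, 2, 0, 3, 0, 0]
  k9 : RR β [0, 1, 2, 1, 1, 3, 0, 4, 1, 1] [1, 0, 2, 1, 1, 3, 0, 4, 1, 1]

/-- the system h5 -/
structure H5 (β : FIC) : Prop extends S8 β where
  j3 : RR β [0, 2, 0, 3, 0] [0, 2, 0, 0, 3, 0, 0]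

/-- the system h3 -/
structure H3 (β : FIC) : Prop extends BaseH β where
  t1 : RR β [0, 1, 2, 0, 3, 1, 1] [1, 0, 2, 0, 3, 1, 1]
  t2 : RR β [0, 2, 0, 1, 3, 1, 1] [0, 2, 1, 0, 3, 1, 1]
  t3 : RR β [0, 1, 2, 0, 0, 3, 1] [1, 0, 2, 0, 0, 3, 1]
  t4 : RR β [0, 0, 1, 2, 1] [1, 0, 0, 2, 1]
  t5 : RR β [0, 2, 0, 1, 1] [0, 2, 1, 1, 0]

/-- the system h2 (in the base (h)) -/
structure H2 (β : FIC) : Prop extends BaseH β where
  hh : RR β [0, 0, 1, 1] [1, 1, 0, 0]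
  j3 : RR β [0, 2, 0, 3, 0] [0, 0, 2, 0, 0, 3, 0, 0]

/-- the identities of h4, h5 and `xtxsx ≈ xtxsx²` as a bit -/
def S8J (β : FIC) : Prop := S8 β ∧ Has 1 (FC.ofFIC β) (Bit.J 3)

end Pool.Agent.MWH
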